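import Pool.Agent.X89.SQ3

open MeasureTheory Real Set Filter Topology
open scoped FourierTransform ENNReal

namespace Pool.Agent.Results.MP_d6da6d_an.IndicatorNotExtremal

/-- The functional `Φ_α` (with `β = 1`, dimension one), with values in `[0, ∞]`, for a
complex-valued function `u` on the line.  `𝓕 u ξ = ∫ u(x) e^{-2πi x ξ} dx`. -/
noncomputable def Phi (α : ℝ) (u : ℝ → ℂ) : ℝ≥0∞ :=
  (eLpNorm (fun ξ : ℝ => (ξ : ℂ) * 𝓕 u ξ) ⊤ volume) ^ α *
    eLpNorm (fun x : ℝ => ((|x| ^ α : ℝ) : ℂ) * u x) 1 volume / (eLpNorm u 1 volume) ^ (α + 1)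

/-- The indicator function of `[-1/2, 1/2]`. -/
noncomputable def chi (x : ℝ) : ℂ := (Icc (-(1/2) : ℝ) (1/2)).indicator (fun _ => (1 : ℂ)) x

open X89SQ

lemma fourier_eq_FF (v : ℝ → ℝ) (ξ : ℝ) : 𝓕 (fun x => (v x : ℂ)) ξ = FF v ξ := by
  rw [Real.fourier_real_eq_integral_exp_smul]
  rfl

lemma FF_scale (v : ℝ → ℝ) (l : ℝ) (hl : 0 < l) (ξ : ℝ) :
    FF (fun x => v (l * x)) ξ = (l⁻¹ : ℝ) * FF v (ξ / l) := by
  unfold FF
  have := Measure.integral_comp_mul_left (fun y : ℝ => Complex.exp (↑(-2 * π * y * (ξ / l)) * Complex.I) * (v y : ℂ)) l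
  rw [abs_of_pos (inv_pos.2 hl)] at this
  rw [← Complex.real_smul, ← this]
  congr 1
  funext x
  have e : -2 * π * (l * x) * (ξ / l) = -2 * π * x * ξ := by field_simp
  simp only [e]

lemma eLpNorm_one_real (v : ℝ → ℝ) (hv : Integrable v) :
    eLpNorm (fun x => (v x : ℂ)) 1 volume = ENNReal.ofReal (∫ x, |v x|) := by
  rw [eLpNorm_one_eq_lintegral_enorm]
  have h := ofReal_integral_norm_eq_lintegral_enorm
    (hv.ofReal : Integrable (fun x => ((v x : ℝ) : ℂ)))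
  rw [← h]
  congr 1
  congr 1
  funext x
  exact Complex.norm_real _

lemma eLpNorm_one_weight {α : ℝ} (v : ℝ → ℝ) (hv : Integrable (fun x => |x| ^ α * v x)) :
    eLpNorm (fun x : ℝ => ((|x| ^ α : ℝ) : ℂ) * (v x : ℂ)) 1 volume
      = ENNReal.ofReal (∫ x, |x| ^ α * |v x|) := by
  have h := eLpNorm_one_real (fun x => |x| ^ α * v x) hv
  have e1 : (fun x : ℝ => ((|x| ^ α : ℝ) : ℂ) * (v x : ℂ)) = fun x => ((|x| ^ α * v x : ℝ) : ℂ) := by
    funext x; push_cast; rfl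
  rw [e1, h]
  congr 2
  funext x
  rw [abs_mul, abs_of_nonneg (Real.rpow_nonneg (abs_nonneg x) α)]

lemma chi_eq : chi = fun x => (box (1/2) x : ℂ) := by
  funext x
  rw [box_eq_indicator]
  unfold chi
  by_cases h : x ∈ Icc (-(1/2) : ℝ) (1/2)
  · rw [indicator_of_mem h, indicator_of_mem h]; simp
  · rw [indicator_of_notMem h, indicator_of_notMem h]; simp

/-- lower bound for `Φ_α(χ)`. -/
lemma Phi_chi {α : ℝ} (hα : 0 < α) :
    ENNReal.ofReal ((1 / π) ^ α * (1 / (2 ^ α * (α + 1)))) ≤ Phi α chi := by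
  have hn : eLpNorm chi 1 volume = 1 := by
    rw [chi_eq, eLpNorm_one_real _ (good_box _).int1]
    have : (fun x => |box (1/2) x|) = box (1/2) := by
      funext x; exact abs_of_nonneg (box_nonneg _ x)
    rw [this, int_box _ (by norm_num)]
    norm_num
  have hc : Continuous (fun x : ℝ => |x| ^ α) := continuous_abs.rpow_const (fun _ => Or.inr hα.le)
  have hm : eLpNorm (fun x : ℝ => ((|x| ^ α : ℝ) : ℂ) * chi x) 1 volume
      = ENNReal.ofReal (1 / (2 ^ α * (α + 1))) := by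
    rw [chi_eq, eLpNorm_one_weight _ ((good_box _).intR hc)]
    congr 1
    have e : (fun x : ℝ => |x| ^ α * |box (1/2) x|) = fun x => |x + 0| ^ α * box (1/2) x := by
      funext x; rw [abs_of_nonneg (box_nonneg _ x), add_zero]
    rw [e]
    have h := mom_box hα (R := 1/2) (s := 0) (by norm_num)
    unfold mom at h
    rw [h, add_zero, sub_zero, Real.rpow_add_one (by norm_num), one_div, Real.inv_rpow (by norm_num)]
    have h2 : (2:ℝ) ^ α ≠ 0 := (Real.rpow_pos_of_pos (by norm_num) _).ne'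
    field_simp
    norm_num
  have hs : ENNReal.ofReal (1 / π) ≤ eLpNorm (fun ξ : ℝ => (ξ : ℂ) * 𝓕 chi ξ) ⊤ volume := by
    have hf : (fun ξ : ℝ => (ξ : ℂ) * 𝓕 chi ξ) = fun ξ => ((Real.sin (π * ξ) / π : ℝ) : ℂ) := by
      funext ξ
      rw [chi_eq, fourier_eq_FF]
      have h := FF_box (1/2) (by norm_num) ξ
      have hpi : (π : ℂ) ≠ 0 := by exact_mod_cast Real.pi_ne_zero
      rw [show 2 * π * (1/2) * ξ = π * ξ by ring] at h
      rw [mul_assoc] at h
      push_cast at h ⊢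
      rw [eq_div_iff hpi, ← h]; ring
    rw [hf, eLpNorm_exponent_top]
    by_contra hlt
    rw [not_le] at hlt
    obtain ⟨c, hc1, hc2⟩ := exists_between hlt
    have hae : ∀ᵐ ξ : ℝ ∂volume, ‖((Real.sin (π * ξ) / π : ℝ) : ℂ)‖ₑ < c := by
      have := ae_le_eLpNormEssSup (f := fun ξ : ℝ => ((Real.sin (π * ξ) / π : ℝ) : ℂ)) (μ := (volume : Measure ℝ))
      filter_upwards [this] with ξ hξ
      exact lt_of_le_of_lt hξ hc1
    have hd : Dense {ξ : ℝ | ‖((Real.sin (π * ξ) / π : ℝ) : ℂ)‖ₑ ≤ c} := by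
      apply Measure.dense_of_ae (μ := (volume : Measure ℝ))
      filter_upwards [hae] with ξ hξ
      exact hξ.le
    have hcl : IsClosed {ξ : ℝ | ‖((Real.sin (π * ξ) / π : ℝ) : ℂ)‖ₑ ≤ c} := by
      apply isClosed_le _ continuous_const
      apply Continuous.enorm
      fun_prop
    have hu := hcl.closure_eq.symm.trans hd.closure_eq
    have h12 : (1/2 : ℝ) ∈ {ξ : ℝ | ‖((Real.sin (π * ξ) / π : ℝ) : ℂ)‖ₑ ≤ c} := by
      rw [hu]; trivial
    have h13 : ‖((Real.sin (π * (1/2)) / π : ℝ) : ℂ)‖ₑ ≤ c := h12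
    rw [mul_one_div, Real.sin_pi_div_two, ← ofReal_norm, Complex.norm_real,
      Real.norm_of_nonneg (by positivity)] at h13
    exact absurd (lt_of_lt_of_le hc2 h13) (lt_irrefl _)
  unfold Phi
  rw [hn, hm, ENNReal.one_rpow, div_one, ENNReal.ofReal_mul (by positivity),
    ← ENNReal.ofReal_rpow_of_nonneg (by positivity) hα.le]
  gcongr

theorem result (α : ℝ) (hα : 0 < α) :
    ∃ u : ℝ → ℝ, Integrable u ∧ (∀ x ∈ Icc (-(1/2) : ℝ) (1/2), u x ≠ 0) ∧
      (∀ x ∉ Icc (-(1/2) : ℝ) (1/2), u x = 0) ∧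
      Phi α (fun x => (u x : ℂ)) < Phi α chi := by
  obtain ⟨R, hR, hlt⟩ := exists_R hα
  set l : ℝ := 2 * (R + 26) with hl
  have hl0 : 0 < l := by linarith
  have hg := good_u0 R
  have hgi : Integrable (fun x => u0 R (l * x)) := hg.int1.comp_mul_left' hl0.ne'
  refine ⟨fun x => u0 R (l * x), hgi, ?_, ?_, ?_⟩
  · intro x hx
    apply u0_ne_zero hR
    rw [mem_Icc, ← abs_le] at hx
    rw [abs_mul, abs_of_pos hl0, hl]
    nlinarith
  · intro x hx
    apply u0_supp hR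
    rw [mem_Icc, ← abs_le, not_le] at hx
    rw [abs_mul, abs_of_pos hl0, hl]
    nlinarith
  refine lt_of_lt_of_le ?_ (Phi_chi hα)
  have hc : Continuous (fun x : ℝ => |x| ^ α) := continuous_abs.rpow_const (fun _ => Or.inr hα.le)
  set N0 := ∫ x, |u0 R x| with hN0
  set m0 := ∫ x, |x| ^ α * |u0 R x| with hm0
  have hN0pos : 0 < N0 := by
    have := abs_u0_lower R hR
    linarith
  have hl' : (0:ℝ) < l ^ α := Real.rpow_pos_of_pos hl0 _
  have hN : ∫ x, |u0 R (l * x)| = l⁻¹ * N0 := by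
    have := Measure.integral_comp_mul_left (fun y : ℝ => |u0 R y|) l
    rw [abs_of_pos (inv_pos.2 hl0), smul_eq_mul] at this
    exact this
  have hm : ∫ x, |x| ^ α * |u0 R (l * x)| = l⁻¹ * (l ^ α)⁻¹ * m0 := by
    have := Measure.integral_comp_mul_left (fun y : ℝ => |y| ^ α * |u0 R y|) l
    rw [abs_of_pos (inv_pos.2 hl0), smul_eq_mul] at this
    have e : ∀ x, |l * x| ^ α * |u0 R (l * x)| = l ^ α * (|x| ^ α * |u0 R (l * x)|) := by
      intro x
      rw [abs_mul, abs_of_pos hl0, Real.mul_rpow hl0.le (abs_nonneg x)]; ring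
    simp_rw [e] at this
    rw [integral_const_mul] at this
    have h3 : ∫ x, |x| ^ α * |u0 R (l * x)| = (l ^ α)⁻¹ * (l ^ α * ∫ x, |x| ^ α * |u0 R (l * x)|) := by
      field_simp
    rw [h3, this]; ring
  have hwi : Integrable (fun x => |x| ^ α * u0 R (l * x)) := by
    have h1 := (hg.intR hc).comp_mul_left' hl0.ne'
    have h2 := h1.const_mul ((l ^ α)⁻¹)
    refine h2.congr (Filter.Eventually.of_forall fun x => ?_)
    simp only
    rw [abs_mul, abs_of_pos hl0, Real.mul_rpow hl0.le (abs_nonneg x)]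
    field_simp
  have hsup : eLpNorm (fun ξ : ℝ => (ξ : ℂ) * 𝓕 (fun x => ((u0 R (l * x) : ℝ) : ℂ)) ξ) ⊤ volume
      ≤ ENNReal.ofReal (1 / π) := by
    rw [eLpNorm_exponent_top]
    apply eLpNormEssSup_le_of_ae_bound
    refine Filter.Eventually.of_forall fun ξ => ?_
    rw [fourier_eq_FF (fun x => u0 R (l * x)), FF_scale _ l hl0]
    have h1 := FF_u0 R (by linarith) (ξ / l)
    have hpi : (π : ℂ) ≠ 0 := by exact_mod_cast Real.pi_ne_zero
    have e : (ξ : ℂ) * (((l⁻¹ : ℝ) : ℂ) * FF (u0 R) (ξ / l))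
        = (π : ℂ)⁻¹ * ((π * ((ξ / l : ℝ) : ℂ)) * FF (u0 R) (ξ / l)) := by
      push_cast
      field_simp
    rw [e, norm_mul, norm_inv, Complex.norm_real, Real.norm_of_nonneg Real.pi_pos.le, one_div]
    calc π⁻¹ * ‖(π * ((ξ / l : ℝ) : ℂ)) * FF (u0 R) (ξ / l)‖ ≤ π⁻¹ * 1 := by gcongr
      _ = π⁻¹ := mul_one _
  have hle : Phi α (fun x => ((u0 R (l * x) : ℝ) : ℂ)) ≤
      ENNReal.ofReal ((1 / π) ^ α * (l⁻¹ * (l ^ α)⁻¹ * m0) / (l⁻¹ * N0) ^ (α + 1)) := by
    unfold Phi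
    rw [eLpNorm_one_real _ hgi, eLpNorm_one_weight _ hwi, hN, hm]
    have hn0 : 0 < l⁻¹ * N0 := by positivity
    generalize l⁻¹ * (l ^ α)⁻¹ * m0 = M
    generalize l⁻¹ * N0 = n at hn0 ⊢
    rw [ENNReal.ofReal_div_of_pos (by positivity), ENNReal.ofReal_mul (by positivity),
      ← ENNReal.ofReal_rpow_of_nonneg (by positivity) hα.le,
      ← ENNReal.ofReal_rpow_of_nonneg hn0.le (by linarith : (0:ℝ) ≤ α + 1)]
    gcongr
  refine lt_of_le_of_lt hle ?_
  rw [ENNReal.ofReal_lt_ofReal_iff (by positivity)]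
  have hpα : (0:ℝ) < (1 / π) ^ α := Real.rpow_pos_of_pos (by positivity) _
  have h2α : (0:ℝ) < 2 ^ α := Real.rpow_pos_of_pos (by norm_num) _
  have hNp : (0:ℝ) < N0 ^ (α + 1) := Real.rpow_pos_of_pos hN0pos _
  have e1 : (l⁻¹ * N0) ^ (α + 1) = l⁻¹ * (l ^ α)⁻¹ * N0 ^ (α + 1) := by
    rw [Real.mul_rpow (by positivity) hN0pos.le, Real.rpow_add_one (by positivity), Real.inv_rpow hl0.le]
    ring
  rw [e1, mul_div_assoc]
  apply mul_lt_mul_of_pos_left _ hpα
  rw [mul_div_mul_left _ _ (by positivity : l⁻¹ * (l ^ α)⁻¹ ≠ 0), div_lt_div_iff₀ hNp (by positivity)]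
  linarith

end Pool.Agent.Results.MP_d6da6d_an.IndicatorNotExtremal
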